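import Pool.Agent.Y707.PH.Fam

/-! The continued Euler product. -/

set_option autoImplicit false

namespace Pool.Agent.Y707.PH

open NumberField IsDedekindDomain Filter Topology
open Pool.Agent.H126R3 (Qc Qc_pos)
open Pool.Agent.W385.CP
open Pool.Agent.W353.FB (Fibration)

/-- the logarithm of an Euler factor -/
theorem hasSum_log (β : Multiset ℂ) (x : ℂ) (h : ∀ z ∈ β, ‖z * x‖ < 1) :
    HasSum (fun m : ℕ => (β.map fun z => z ^ (m + 1)).sum * x ^ (m + 1) / (m + 1 : ℂ))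
      (β.map fun z => -Complex.log (1 - z * x)).sum := by
  induction β using Multiset.induction_on with
  | empty =>
    simp only [Multiset.map_zero, Multiset.sum_zero, zero_mul, zero_div]
    exact hasSum_zero
  | cons a β ih =>
    have h1 := ih fun z hz => h z (Multiset.mem_cons_of_mem hz)
    have h2 : HasSum (fun m : ℕ => (a * x) ^ (m + 1) / ((m + 1 : ℕ) : ℂ))
        (-Complex.log (1 - a * x)) := by
      have h3 := Complex.hasSum_taylorSeries_neg_log (h a (Multiset.mem_cons_self a β))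
      have h4 := (hasSum_nat_add_iff' (f := fun n : ℕ => (a * x) ^ n / (n : ℂ)) 1).2 h3
      simp only [Finset.range_one, Finset.sum_singleton, Nat.cast_zero, div_zero, sub_zero] at h4
      exact h4
    have h5 := h2.add h1
    rw [Multiset.map_cons, Multiset.sum_cons]
    have e : (fun m : ℕ => ((a ::ₘ β).map fun z => z ^ (m + 1)).sum * x ^ (m + 1) / (m + 1 : ℂ)) =
        fun m : ℕ => (a * x) ^ (m + 1) / ((m + 1 : ℕ) : ℂ) +
          (β.map fun z => z ^ (m + 1)).sum * x ^ (m + 1) / (m + 1 : ℂ) := by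
      funext m
      rw [Multiset.map_cons, Multiset.sum_cons, mul_pow]
      push_cast
      ring
    rw [e]
    exact h5

/-- an Euler factor -/
theorem exp_log (β : Multiset ℂ) (x : ℂ) (h : ∀ z ∈ β, ‖z * x‖ < 1) :
    Complex.exp (∑' m : ℕ, (β.map fun z => z ^ (m + 1)).sum * x ^ (m + 1) / (m + 1 : ℂ)) =
      (β.map fun z => (1 - z * x)⁻¹).prod := by
  rw [(hasSum_log β x h).tsum_eq]
  have h1 : ∀ γ : Multiset ℂ, Complex.exp γ.sum = (γ.map Complex.exp).prod := by
    intro γ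
    induction γ using Multiset.induction_on with
    | empty => simp
    | cons a γ ih => rw [Multiset.sum_cons, Multiset.map_cons, Multiset.prod_cons, Complex.exp_add, ih]
  rw [h1, Multiset.map_map]
  congr 1
  refine Multiset.map_congr rfl fun z hz => ?_
  rw [Function.comp_apply, Complex.exp_neg, Complex.exp_log]
  intro h2
  have h3 : z * x = 1 := (sub_eq_zero.1 h2).symm
  have h4 := h z hz
  rw [h3, norm_one] at h4
  exact lt_irrefl _ h4

section
variable {K : Type} [Field K] [NumberField K] (f : Fibration K)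
  (R : Finset (HeightOneSpectrum (𝓞 K))) (F : Type) [Field F] [NumberField F] [Algebra K F]

/-- the coefficients of the logarithm -/
noncomputable def cf (c : Nat.Primes × ℕ) : ℂ := Ac (tr f R F) c

/-- the continued Euler product -/
noncomputable def Ph (s : ℂ) : ℂ := Complex.exp (∑' c, cf f R F c * ((Qc c : ℕ) : ℂ) ^ (-s))

/-- a bound -/
noncomputable def bC (C : ℝ) : ℝ := Module.finrank ℤ (𝓞 F) * |C|

variable {f R F} {C : ℝ}

theorem bC_nonneg : 0 ≤ bC F C := mul_nonneg (Nat.cast_nonneg _) (abs_nonneg _)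

theorem cf_eq (hf : IsLisse f R C) {k : Type} [Field k] [Finite k] {c : Nat.Primes × ℕ}
    (hk : Nat.card k = Qc c) :
    cf f R F c = ((∑ᶠ φ : 𝓞 F →+* k, wt f R F φ : ℝ) : ℂ) / ((c.2 + 1 : ℕ) : ℂ) := by
  unfold cf
  rw [Ac_eq (Fintype.card (Fin f.l)) (Module.finrank ℤ (𝓞 F)) (tr f R F) c hk, sum_tr hf hk]

theorem abs_sum_wt (hf : IsLisse f R C) (k : Type) [Field k] [Finite k] :
    |∑ᶠ φ : 𝓞 F →+* k, wt f R F φ| ≤ bC F C * (Nat.card k : ℝ) ^ f.m := by
  classical
  have hfin := hom_int F k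
  have hf1 := hfin.1
  let _ := Fintype.ofFinite (𝓞 F →+* k)
  rw [finsum_eq_sum_of_fintype]
  refine (Finset.abs_sum_le_sum_abs _ _).trans ?_
  refine (Finset.sum_le_sum fun φ _ => abs_wt hf φ).trans ?_
  rw [Finset.sum_const, nsmul_eq_mul, Finset.card_univ, ← Nat.card_eq_fintype_card]
  unfold bC
  rw [mul_assoc]
  exact mul_le_mul_of_nonneg_right (by exact_mod_cast hfin.2) (by positivity)

theorem norm_cf (hf : IsLisse f R C) (c : Nat.Primes × ℕ) :
    ‖cf f R F c‖ ≤ bC F C * (Qc c : ℝ) ^ f.m := by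
  rw [cf_eq hf (card_Fc c), norm_div, Complex.norm_real, Complex.norm_natCast, Real.norm_eq_abs]
  have h1 := abs_sum_wt (F := F) hf (Fc c)
  rw [card_Fc] at h1
  have h2 : (1 : ℝ) ≤ ((c.2 + 1 : ℕ) : ℝ) := by exact_mod_cast Nat.succ_pos _
  exact (div_le_self (abs_nonneg _) h2).trans h1

theorem cb (hf : IsLisse f R C) {C' : ℝ} (h : bC F C ≤ C') : CB (cf f R F) f.m C' where
  c0 := bC_nonneg.trans h
  h0 p := by
    refine (norm_cf hf (p, 0)).trans ?_
    rw [Qc_zero]
    exact mul_le_mul_of_nonneg_right h (by positivity)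
  h1 p := by
    refine (norm_cf hf (p, 1)).trans ?_
    have e : ((Qc (p, 1) : ℕ) : ℝ) ^ f.m = ((p : ℕ) : ℝ) ^ (2 * f.m) := by
      unfold Qc
      push_cast
      rw [← pow_mul]
    rw [e]
    exact mul_le_mul_of_nonneg_right h (by positivity)
  h2 c := by
    refine (norm_cf hf c).trans ?_
    have h1 : (1 : ℝ) ≤ (Qc c : ℝ) := by exact_mod_cast Qc_pos c
    have h2 : (Qc c : ℝ) ^ f.m ≤ (Qc c : ℝ) ^ ((f.m : ℝ) + 1 / 2) := by
      rw [← Real.rpow_natCast]
      exact Real.rpow_le_rpow_of_exponent_le h1 (by linarith)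
    exact mul_le_mul h h2 (by positivity) (bC_nonneg.trans h)

theorem Ph_ne (s : ℂ) : Ph f R F s ≠ 0 := Complex.exp_ne_zero _

theorem Ph_diff (hf : IsLisse f R C) :
    DifferentiableOn ℂ (Ph f R F) {s : ℂ | (f.m : ℝ) + 1 < s.re} :=
  (diffA (cb (F := F) hf le_rfl)).cexp

theorem isLocal_eg (hf : IsLisse f R C) :
    IsLocal f R F fun y : Pts f R F => eg f.eqFibre f.r (md f F y.1) := by
  intro y κ _ ψ hψ hker
  have hy : y.1 ∈ Ys f R F := y.2
  let θ : Rs y.1 →+* κ := Ideal.Quotient.lift y.1.asIdeal ψ fun x hx => by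
    rw [← hker] at hx
    exact hx
  have h1 : θ.comp (md f F y.1) = ψ.comp (mp f F) := RingHom.ext fun x => rfl
  have h2 : Function.Bijective θ := ⟨θ.injective, fun x => by
    obtain ⟨b, rfl⟩ := hψ x
    exact ⟨Ideal.Quotient.mk y.1.asIdeal b, rfl⟩⟩
  have h3 : Nat.card κ = Nat.card (Rs y.1) := (Nat.card_eq_of_bijective θ h2).symm
  have h4 := (eigen_md hf hy).1.iso θ h3
  rw [h1] at h4
  exact h4

theorem isLocal_unique {β β' : Pts f R F → Multiset ℂ} (h : IsLocal f R F β)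
    (h' : IsLocal f R F β') : β = β' := by
  have h0 := f.one_le
  funext y
  have h1 : RingHom.ker (Ideal.Quotient.mk y.1.asIdeal : Bf f F →+* Rs y.1) = y.1.asIdeal :=
    Ideal.mk_ker
  have h2 := h y (Rs y.1) (Ideal.Quotient.mk y.1.asIdeal) Ideal.Quotient.mk_surjective h1
  have h3 := h' y (Rs y.1) (Ideal.Quotient.mk y.1.asIdeal) Ideal.Quotient.mk_surjective h1
  exact h2.unique (by omega) h3

theorem hasProd_Ph (hf : IsLisse f R C) (s : ℂ) (hs : (f.m : ℝ) + 3 / 2 < s.re) :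
    HasProd (fun y : Pts f R F => ((eg f.eqFibre f.r (md f F y.1)).map fun z =>
      (1 - z * ((Nat.card (MvPolynomial (Fin f.l) (𝓞 F) ⧸ y.1.asIdeal) : ℕ) : ℂ) ^ (-s))⁻¹).prod)
      (Ph f R F s) := by
  have h1 := hasProd_LY (B := Bf f F) (Fintype.card (Fin f.l)) (Module.finrank ℤ (𝓞 F))
    (Y := Ys f R F) (n := f.m) (C1 := Module.finrank ℤ (𝓞 F) * |C|) (tr := tr f R F)
    (w := 1 / 2) (Ct := |C|) (abs_nonneg C) (tr_norm hf) (fun y hy m => by
      unfold tr
      rw [if_neg hy]) (few hf) s (by linarith)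
  refine Eq.mp (congrArg (fun g => HasProd g _) (funext fun y => ?_)) h1
  have hq1 : (1 : ℝ) < ((qn y.1 : ℕ) : ℝ) := by
    have := two_le_qn y.1
    exact_mod_cast (by omega : 1 < qn y.1)
  have h2 : ∀ z ∈ eg f.eqFibre f.r (md f F y.1), ‖z * ((qn y.1 : ℕ) : ℂ) ^ (-s)‖ < 1 := by
    intro z hz
    rw [norm_mul, Complex.norm_natCast_cpow_of_pos (by have := two_le_qn y.1; omega),
      (eigen_md hf y.2).1.norm hz]
    change ((qn y.1 : ℕ) : ℝ) ^ (((1 : ℕ) : ℝ) / 2) * _ < 1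
    rw [← Real.rpow_add (by linarith), Complex.neg_re]
    refine Real.rpow_lt_one_of_one_lt_of_neg hq1 ?_
    have : (0 : ℝ) ≤ f.m := Nat.cast_nonneg _
    push_cast
    linarith
  have h3 := exp_log _ _ h2
  change Complex.exp _ = (Multiset.map (fun z => (1 - z * ((qn y.1 : ℕ) : ℂ) ^ (-s))⁻¹)
    (eg f.eqFibre f.r (md f F y.1))).prod
  rw [← h3]
  congr 1
  refine tsum_congr fun m => ?_
  have hy : y.1 ∈ Ys f R F := y.2
  unfold tr
  rw [if_pos hy, ← Complex.cpow_nat_mul]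
  congr 3
  push_cast
  ring

theorem isPhi (hf : IsLisse f R C) : IsPhi f R F (Ph f R F) :=
  ⟨Ph_diff hf, _, isLocal_eg hf, fun s hs => hasProd_Ph hf s hs⟩

theorem isPhi_unique {Φ Ψ : ℂ → ℂ} (h : IsPhi f R F Φ) (h' : IsPhi f R F Ψ) (s : ℂ)
    (hs : (f.m : ℝ) + 1 < s.re) : Φ s = Ψ s := by
  obtain ⟨h1, β, h2, h3⟩ := h
  obtain ⟨h1', β', h2', h3'⟩ := h'
  obtain rfl := isLocal_unique h2 h2'
  have hopen : IsOpen {s : ℂ | (f.m : ℝ) + 1 < s.re} :=
    isOpen_lt continuous_const Complex.continuous_re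
  have hconn : IsPreconnected {s : ℂ | (f.m : ℝ) + 1 < s.re} :=
    (convex_halfSpace_re_gt _).isPreconnected
  have g1 := h1.analyticOnNhd hopen
  have g2 := h1'.analyticOnNhd hopen
  set z₀ : ℂ := (((f.m : ℝ) + 2 : ℝ) : ℂ) with hz₀
  have hz : z₀ ∈ {s : ℂ | (f.m : ℝ) + 1 < s.re} := by
    simp only [Set.mem_ofPred_eq, hz₀, Complex.ofReal_re]
    linarith
  refine g1.eqOn_of_preconnected_of_eventuallyEq g2 hconn hz ?_ hs
  have g3 : IsOpen {s : ℂ | (f.m : ℝ) + 3 / 2 < s.re} :=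
    isOpen_lt continuous_const Complex.continuous_re
  have hz' : z₀ ∈ {s : ℂ | (f.m : ℝ) + 3 / 2 < s.re} := by
    simp only [Set.mem_ofPred_eq, hz₀, Complex.ofReal_re]
    linarith
  filter_upwards [g3.mem_nhds hz'] with z hz
  exact (h3 z hz).unique (h3' z hz)

end

end Pool.Agent.Y707.PH
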