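import Pool.Agent.W353.FB.Final
import Pool.Agent.W385.CP.Gen
import Pool.Agent.W385.CP.Poly

/-!
# The function `Φ₁` of a family over all number fields: definitions

`X → 𝒴` is the generic fibre of a family `f : 𝒳 → 𝒴` over a number field `K`, given as a
`Fibration`.  For a number field `F ⊇ K` the function `Φ₁` of `X` over `F(𝒴)` is the Euler product over
the closed points of the model of `𝒴_F` over the ring of integers of `F`, without the finite set `R` of
primes of `K`.
-/

set_option autoImplicit false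

namespace Pool.Agent.Y707.PH

open NumberField IsDedekindDomain Filter Topology
open Pool.Agent.W353.FB
open Pool.Agent.W353.TD (rank)

section
variable {R : Type} [CommRing R] {n : ℕ}

/-- `γ` is the multiset of the eigenvalues of the geometric Frobenius on `H^i` of the projective
variety over the finite field `κ`, with `q` elements, given by the homogeneous equations `X` and `φ`, of
dimension at most `r`: there are finite multisets `β_k` of complex numbers of absolute value `q^{k/2}`,
with `γ = β_i`, such that for every finite extension of `κ`, of degree `e`, the number of the points is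
`∑_{k ≤ 2r} (-1)^k ∑_{z ∈ β_k} z^e`. -/
def IsEigen (X : Set (MvPolynomial (Fin n) R)) (r i : ℕ) {κ : Type} [Field κ] (φ : R →+* κ)
    (γ : Multiset ℂ) : Prop :=
  ∃ β : ℕ → Multiset ℂ, β i = γ ∧
    (∀ k, ∀ z ∈ β k, ‖z‖ = (Nat.card κ : ℝ) ^ ((k : ℝ) / 2)) ∧
    ∀ (κ' : Type) [Field κ'] [Finite κ'] (θ : κ →+* κ') (e : ℕ), Nat.card κ' = Nat.card κ ^ e →
      (cone X (θ.comp φ) : ℂ) = ((Nat.card κ : ℂ) ^ e - 1) *
        ∑ k ∈ Finset.range (2 * r + 1), (-1 : ℂ) ^ k * ((β k).map (fun z => z ^ e)).sum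

end

section
variable {K : Type} [Field K] [NumberField K]

/-- Outside the finite set `R` of primes of `K` the family has the properties of a smooth projective
family without constant part: for every finite field `κ` with `q` elements and every homomorphism
`𝓞_K → κ` whose kernel is not in `R`,
* the base has at most `C q^m` points with coordinates in `κ`;
* every fibre over such a point has Frobenius eigenvalues on `H¹`, and at most `C` of them;
* the fibre average `q^{-m} ∑_t a_t` of the traces on `H¹` has absolute value at most `C`. -/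
def IsLisse (f : Fibration K) (R : Finset (HeightOneSpectrum (𝓞 K))) (C : ℝ) : Prop :=
  ∀ (κ : Type) [Field κ] [Finite κ] (φ : 𝓞 K →+* κ), (∀ v ∈ R, RingHom.ker φ ≠ v.asIdeal) →
    (Nat.card (f.points φ) : ℝ) ≤ C * (Nat.card κ : ℝ) ^ f.m ∧
    (∀ t ∈ f.points φ, ∃ γ : Multiset ℂ,
      IsEigen f.eqFibre f.r 1 (MvPolynomial.eval₂Hom φ t) γ ∧ (γ.card : ℝ) ≤ C) ∧
    ∀ A : ℝ, f.IsAverage 1 φ A → |A| ≤ C

/-- The values `z = -A`, for the fibre average `A` of the traces on `H¹`. -/
def averageValue (f : Fibration K) : LocalValue K :=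
  fun _ _ φ z => ∃ A : ℝ, f.IsAverage 1 φ A ∧ z = -A

/-- The closed points of the model of `𝒴_F` over `𝓞_F`, without the fibres over the primes above `R`. -/
def Pts (f : Fibration K) (R : Finset (HeightOneSpectrum (𝓞 K))) (F : Type) [Field F]
    [NumberField F] [Algebra K F] : Type :=
  {y : MaximalSpectrum (MvPolynomial (Fin f.l) (𝓞 F)) //
    (∀ g ∈ f.eqBase, MvPolynomial.map (algebraMap (𝓞 K) (𝓞 F)) g ∈ y.asIdeal) ∧
    MvPolynomial.map (algebraMap (𝓞 K) (𝓞 F)) f.h ∉ y.asIdeal ∧
    ∀ v ∈ R, y.asIdeal.comap (MvPolynomial.C.comp (algebraMap (𝓞 K) (𝓞 F))) ≠ v.asIdeal}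

/-- The multisets `β y` are the Frobenius eigenvalues on `H¹` of the fibres over the closed points. -/
def IsLocal (f : Fibration K) (R : Finset (HeightOneSpectrum (𝓞 K))) (F : Type) [Field F]
    [NumberField F] [Algebra K F] (β : Pts f R F → Multiset ℂ) : Prop :=
  ∀ (y : Pts f R F) (κ : Type) [Field κ] (ψ : MvPolynomial (Fin f.l) (𝓞 F) →+* κ),
    Function.Surjective ψ → RingHom.ker ψ = y.1.asIdeal →
    IsEigen f.eqFibre f.r 1 (ψ.comp (MvPolynomial.map (algebraMap (𝓞 K) (𝓞 F)))) (β y)

/-- `Φ` is the function `Φ₁` of the generic fibre over `F(𝒴)`, continued to `Re s > dim 𝒴 = m + 1`: it is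
holomorphic there, and for `Re s > m + 3/2` it is the absolutely convergent Euler product of
`∏_{z ∈ β y} (1 - z q_y^{-s})⁻¹` over the closed points `y`. -/
def IsPhi (f : Fibration K) (R : Finset (HeightOneSpectrum (𝓞 K))) (F : Type) [Field F]
    [NumberField F] [Algebra K F] (Φ : ℂ → ℂ) : Prop :=
  DifferentiableOn ℂ Φ {s : ℂ | (f.m : ℝ) + 1 < s.re} ∧
  ∃ β : Pts f R F → Multiset ℂ, IsLocal f R F β ∧
    ∀ s : ℂ, (f.m : ℝ) + 3 / 2 < s.re →
      HasProd (fun y : Pts f R F => ((β y).map fun z =>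
        (1 - z * ((Nat.card (MvPolynomial (Fin f.l) (𝓞 F) ⧸ y.1.asIdeal) : ℕ) : ℂ) ^ (-s))⁻¹).prod)
        (Φ s)

/-- The function `Φ₁` over `F(𝒴)` has a meromorphic continuation to a neighbourhood of `dim 𝒴 = m + 1`,
of order `k` there. -/
def HasOrder (f : Fibration K) (R : Finset (HeightOneSpectrum (𝓞 K))) (F : Type) [Field F]
    [NumberField F] [Algebra K F] (k : WithTop ℤ) : Prop :=
  ∃ Φ Λ : ℂ → ℂ, IsPhi f R F Φ ∧ MeromorphicAt Λ ((f.m : ℂ) + 1) ∧
    (∀ᶠ s in 𝓝 ((f.m : ℂ) + 1), (f.m : ℝ) + 1 < s.re → Λ s = Φ s) ∧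
    meromorphicOrderAt Λ ((f.m : ℂ) + 1) = k

variable {W : Type} [AddCommGroup W] [Module ℚ W]

/-- Let `s = N - dim W`.  Every sequence `ε_j → 0+` has a subsequence along which the quotients
`log |Φ₁(m + 1 + ε)| / log ε` converge, for the functions `Φ₁` over `F(𝒴)` for all number fields
`F ⊇ K`; let `rank ρ F - δ F` be the limits.  There are numbers `y χ` for all Artin representations `χ`
of `K` such that `δ` and `y` satisfy the laws of `BoundedSpectrum`. -/
def PhiSpectrum (f : Fibration K) (R : Finset (HeightOneSpectrum (𝓞 K))) (N : ℕ)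
    (ρ : Representation ℚ Gal(AlgebraicClosure K/K) W) : Prop :=
  ∀ e : ℕ → ℝ, Tendsto e atTop (𝓝[>] 0) → ∃ φ : ℕ → ℕ, StrictMono φ ∧
    ∃ (δ : IntermediateField K (AlgebraicClosure K) → ℝ)
      (y : ∀ n : ℕ, Representation ℂ Gal(AlgebraicClosure K/K) (Fin n → ℂ) → ℝ),
      (∀ (F : IntermediateField K (AlgebraicClosure K)) [NumberField F] (Φ : ℂ → ℂ),
        IsPhi f R F Φ →
        Tendsto (fun j => Real.log ‖Φ ((f.m : ℂ) + 1 + (e (φ j) : ℂ))‖ / Real.log (e (φ j))) atTop
          (𝓝 ((rank ρ F : ℝ) - δ F))) ∧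
      BoundedSpectrum K (N - Module.finrank ℚ W) δ y

end

end Pool.Agent.Y707.PH
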