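import Pool.Agent.Y707.PH.Defs

/-! Frobenius eigenvalues. -/

set_option autoImplicit false

namespace Pool.Agent.Y707.PH

open ComplexConjugate
open Pool.Agent.W353.FB

section
variable {R : Type} [CommRing R] {n : ℕ} {X : Set (MvPolynomial (Fin n) R)} {r i : ℕ}
  {κ : Type} [Field κ] {φ : R →+* κ} {γ γ' : Multiset ℂ}

theorem IsEigen.unique (hi : i ≤ 2 * r) [Finite κ] (h : IsEigen X r i φ γ)
    (h' : IsEigen X r i φ γ') : γ = γ' := by
  obtain ⟨β, h1, h2, h3⟩ := h
  obtain ⟨β', h1', h2', h3'⟩ := h'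
  have hq : (1 : ℝ) < (Nat.card κ : ℝ) := by exact_mod_cast Finite.one_lt_card
  have key : β i = β' i := by
    refine Pool.Agent.W353.PV.mult_unique (D := 2 * r + 1) hq h2 h2' (fun e he => ?_) (by omega)
    obtain ⟨p, hp⟩ := CharP.exists κ
    have hpp : Fact p.Prime := ⟨CharP.char_is_prime κ p⟩
    have hne : NeZero e := ⟨by omega⟩
    have hc : Nat.card (FiniteField.Extension κ p e) = Nat.card κ ^ e :=
      FiniteField.natCard_extension κ p e
    have e1 := h3 (FiniteField.Extension κ p e) (algebraMap _ _) e hc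
    rw [h3' (FiniteField.Extension κ p e) (algebraMap _ _) e hc] at e1
    refine (mul_left_cancel₀ ?_ e1).symm
    have h4 : (1 : ℝ) < (Nat.card κ : ℝ) ^ e := one_lt_pow₀ hq (by omega)
    intro h5
    have h6 : ((Nat.card κ : ℂ) ^ e) = 1 := sub_eq_zero.1 h5
    have h7 : ((Nat.card κ : ℝ) ^ e) = 1 := by exact_mod_cast h6
    linarith
  rw [← h1, ← h1', key]

theorem IsEigen.isTrace (h : IsEigen X r i φ γ) {a : ℝ} (ha : γ.sum = a) :
    IsTrace X r i φ a := by
  obtain ⟨β, h1, h2, h3⟩ := h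
  exact ⟨β, by rw [h1, ha], h2, h3⟩

theorem _root_.Pool.Agent.W353.FB.IsTrace.eigen {a : ℝ} (h : IsTrace X r i φ a) :
    ∃ γ, IsEigen X r i φ γ ∧ γ.sum = a := by
  obtain ⟨β, h1, h2, h3⟩ := h
  exact ⟨β i, ⟨β, rfl, h2, h3⟩, h1⟩

theorem map_conj_pow (β : Multiset ℂ) (e : ℕ) :
    ((β.map conj).map fun z => z ^ e).sum = conj ((β.map fun z => z ^ e).sum) := by
  rw [map_multiset_sum, Multiset.map_map, Multiset.map_map]
  congr 1
  refine Multiset.map_congr rfl fun z _ => ?_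
  simp only [Function.comp_apply, map_pow]

theorem IsEigen.conj (h : IsEigen X r i φ γ) : IsEigen X r i φ (γ.map (starRingEnd ℂ)) := by
  obtain ⟨β, h1, h2, h3⟩ := h
  refine ⟨fun k => (β k).map (starRingEnd ℂ), congrArg (Multiset.map (starRingEnd ℂ)) h1, fun k z hz => ?_, fun κ' _ _ θ e he => ?_⟩
  · obtain ⟨w, hw, rfl⟩ := Multiset.mem_map.1 hz
    rw [Complex.norm_conj]
    exact h2 k w hw
  · have h4 := congrArg (starRingEnd ℂ) (h3 κ' θ e he)
    rw [Complex.conj_natCast, map_mul, map_sub, map_pow, Complex.conj_natCast, map_one,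
      map_sum] at h4
    rw [h4]
    congr 1
    refine Finset.sum_congr rfl fun k _ => ?_
    rw [map_mul, map_pow, map_neg, map_one, map_conj_pow]

theorem IsEigen.im_sum (hi : i ≤ 2 * r) [Finite κ] (h : IsEigen X r i φ γ) : γ.sum.im = 0 := by
  have h1 := h.unique hi h.conj
  have h2 : conj γ.sum = γ.sum := by
    rw [map_multiset_sum]
    exact congrArg Multiset.sum h1.symm
  exact Complex.conj_eq_iff_im.1 h2

theorem IsEigen.sum_re (hi : i ≤ 2 * r) [Finite κ] (h : IsEigen X r i φ γ) :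
    γ.sum = ((γ.sum.re : ℝ) : ℂ) := by
  apply Complex.ext
  · rw [Complex.ofReal_re]
  · rw [Complex.ofReal_im, h.im_sum hi]

theorem IsEigen.norm (h : IsEigen X r i φ γ) {z : ℂ} (hz : z ∈ γ) :
    ‖z‖ = (Nat.card κ : ℝ) ^ ((i : ℝ) / 2) := by
  obtain ⟨β, h1, h2, h3⟩ := h
  rw [← h1] at hz
  exact h2 i z hz

/-- base change -/
theorem IsEigen.ext (h : IsEigen X r i φ γ) {κ' : Type} [Field κ'] (θ : κ →+* κ') {e : ℕ}
    (he : Nat.card κ' = Nat.card κ ^ e) : IsEigen X r i (θ.comp φ) (γ.map fun z => z ^ e) := by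
  obtain ⟨β, h1, h2, h3⟩ := h
  refine ⟨fun k => (β k).map fun z => z ^ e, congrArg (Multiset.map fun z => z ^ e) h1, fun k z hz => ?_,
    fun κ'' _ _ θ' e' he' => ?_⟩
  · obtain ⟨w, hw, rfl⟩ := Multiset.mem_map.1 hz
    rw [norm_pow, h2 k w hw, he]
    have h4 : (0 : ℝ) ≤ (Nat.card κ : ℝ) := Nat.cast_nonneg _
    push_cast
    rw [← Real.rpow_natCast, ← Real.rpow_natCast, ← Real.rpow_mul h4, ← Real.rpow_mul h4]
    congr 1
    ring
  · have h4 : Nat.card κ'' = Nat.card κ ^ (e * e') := by rw [he', he, pow_mul]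
    have h5 := h3 κ'' (θ'.comp θ) (e * e') h4
    rw [← RingHom.comp_assoc, h5, he]
    congr 1
    · push_cast
      rw [pow_mul]
    · refine Finset.sum_congr rfl fun k _ => ?_
      congr 2
      rw [Multiset.map_map]
      refine Multiset.map_congr rfl fun z _ => ?_
      rw [Function.comp_apply, pow_mul]

theorem IsEigen.iso (h : IsEigen X r i φ γ) {κ' : Type} [Field κ'] (θ : κ →+* κ')
    (he : Nat.card κ' = Nat.card κ) : IsEigen X r i (θ.comp φ) γ := by
  have h1 := h.ext θ (e := 1) (by rw [he, pow_one])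
  have h2 : (γ.map fun z => z ^ 1) = γ := by
    simp only [pow_one, Multiset.map_id']
  rwa [h2] at h1

end

end Pool.Agent.Y707.PH
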