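import Pool.Agent.W385.CP.Sum

/-! Euler products over closed points in a subset with few points. -/

set_option autoImplicit false

namespace Pool.Agent.Y707.PH

open Pool.Agent.H126R3 (Qc Qc_pos pair_unique summable_Q)
open Pool.Agent.W385.CP
open Filter Topology

section
variable {B : Type} [CommRing B] [FinRes B]

/-- few homomorphisms to finite fields at the points of `Y` -/
def Few (Y : Set (MaximalSpectrum B)) (n : ℕ) (C1 : ℝ) : Prop :=
  ∀ c : Nat.Primes × ℕ, (Nat.card {ψ : B →+* Fc c // ptH ψ ∈ Y} : ℝ) ≤ C1 * (Qc c : ℝ) ^ n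

variable (n₀ C₀ : ℕ) [hB : HomBd B n₀ C₀] {Y : Set (MaximalSpectrum B)} {n : ℕ} {C1 : ℝ}

include hB in
theorem card_PhY (c : Nat.Primes × ℕ) :
    Nat.card {z : Ph B c // z.1.1 ∈ Y} ≤ Nat.card {ψ : B →+* Fc c // ptH ψ ∈ Y} := by
  have h1 := hB.fin (Fc c)
  refine Nat.card_le_card_of_surjective
    (fun ψ : {ψ : B →+* Fc c // ptH ψ ∈ Y} => (⟨piH (card_Fc c) ψ.1, ψ.2⟩ :
      {z : Ph B c // z.1.1 ∈ Y})) ?_
  rintro ⟨z, hz⟩
  obtain ⟨ψ, rfl⟩ := piH_surj (B := B) (card_Fc c) z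
  exact ⟨⟨ψ, hz⟩, rfl⟩

variable {tr : MaximalSpectrum B → ℕ → ℂ} {w Ct : ℝ} (hCt : 0 ≤ Ct)
  (htr : ∀ y m, ‖tr y (m + 1)‖ ≤ Ct * (((qn y : ℕ) : ℝ) ^ (m + 1)) ^ w)
  (h0 : ∀ y, y ∉ Y → ∀ m, tr y (m + 1) = 0) (hY : Few Y n C1)

include hB hCt htr h0 hY in
theorem summable_tmY (s : ℂ) (hs : (n : ℝ) + 1 + w < s.re) : Summable (tm tr s) := by
  classical
  refine Summable.of_norm ?_
  rw [← (Equiv.sigmaFiberEquiv (kp (B := B))).summable_iff]
  have hfin : ∀ c, Finite {z : MaximalSpectrum B × ℕ // kp z = c} := fun c =>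
    finPh n₀ C₀ c
  refine (summable_sigma_of_nonneg (fun _ => norm_nonneg _)).2 ⟨fun c => ?_, ?_⟩
  · haveI := hfin c
    exact Summable.of_finite
  · have h1 := (summable_Q (s.re - w - n) (by linarith) 0 (by push_cast; linarith)).mul_left
      (C1 * Ct)
    refine Summable.of_nonneg_of_le (fun c => tsum_nonneg fun _ => norm_nonneg _) (fun c => ?_) h1
    haveI := hfin c
    let _ := Fintype.ofFinite {z : MaximalSpectrum B × ℕ // kp z = c}
    rw [tsum_fintype, if_pos (Nat.zero_le _)]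
    have h2 : ∀ z ∈ (Finset.univ : Finset {z : MaximalSpectrum B × ℕ // kp z = c}).filter
        (fun z => z.1.1 ∈ Y),
        ((fun z => ‖tm tr s z‖) ∘ (Equiv.sigmaFiberEquiv (kp (B := B)))) ⟨c, z⟩ ≤
          Ct * (Qc c : ℝ) ^ (w - s.re) := by
      intro z _
      have h3 := norm_tm htr s z.1
      rw [z.2] at h3
      exact h3
    have h3 : ∀ z ∈ (Finset.univ : Finset {z : MaximalSpectrum B × ℕ // kp z = c}),
        ((fun z => ‖tm tr s z‖) ∘ (Equiv.sigmaFiberEquiv (kp (B := B)))) ⟨c, z⟩ ≠ 0 →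
        z.1.1 ∈ Y := by
      intro z _ hz
      by_contra hcon
      apply hz
      change ‖tm tr s z.1‖ = 0
      unfold tm
      rw [h0 _ hcon, zero_mul, zero_div, norm_zero]
    refine (le_of_eq (Finset.sum_filter_of_ne h3).symm).trans ?_
    refine (Finset.sum_le_card_nsmul _ _ _ h2).trans ?_
    rw [nsmul_eq_mul]
    have h4 : (((Finset.univ : Finset {z : MaximalSpectrum B × ℕ // kp z = c}).filter
        (fun z => z.1.1 ∈ Y)).card : ℝ) ≤ C1 * (Qc c : ℝ) ^ n := by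
      refine le_trans ?_ (hY c)
      rw [← Fintype.card_subtype, ← Nat.card_eq_fintype_card]
      exact_mod_cast card_PhY n₀ C₀ (Y := Y) c
    have h5 : 0 ≤ Ct * (Qc c : ℝ) ^ (w - s.re) := mul_nonneg hCt (Real.rpow_nonneg (Qc_pos' c).le _)
    refine (mul_le_mul_of_nonneg_right h4 h5).trans (le_of_eq ?_)
    have h6 : (Qc c : ℝ) ^ (-(s.re - w - n)) = (Qc c : ℝ) ^ n * (Qc c : ℝ) ^ (w - s.re) := by
      rw [← Real.rpow_natCast, ← Real.rpow_add (Qc_pos' c)]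
      congr 1
      ring
    rw [h6]
    ring

include hB hCt htr h0 hY in
theorem hasSum_AcY (s : ℂ) (hs : (n : ℝ) + 1 + w < s.re) :
    HasSum (fun c => Ac tr c * ((Qc c : ℕ) : ℂ) ^ (-s)) (∑' z, tm tr s z) := by
  have hfin : ∀ c, Finite {z : MaximalSpectrum B × ℕ // kp z = c} := fun c =>
    finPh n₀ C₀ c
  have h1 := (summable_tmY n₀ C₀ hCt htr h0 hY s hs).hasSum
  rw [← (Equiv.sigmaFiberEquiv (kp (B := B))).hasSum_iff] at h1
  refine h1.sigma fun c => ?_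
  haveI := hfin c
  let _ := Fintype.ofFinite {z : MaximalSpectrum B × ℕ // kp z = c}
  have h2 : Ac tr c * ((Qc c : ℕ) : ℂ) ^ (-s) = ∑ z : {z : MaximalSpectrum B × ℕ // kp z = c},
      ((tm tr s) ∘ (Equiv.sigmaFiberEquiv (kp (B := B)))) ⟨c, z⟩ := by
    unfold Ac
    rw [finsum_eq_sum_of_fintype, Finset.sum_mul]
    refine Finset.sum_congr rfl fun z _ => ?_
    change _ = tm tr s z.1
    rw [tm_eq, z.2]
  rw [h2]
  exact hasSum_fintype _

include hB hCt htr h0 hY in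
/-- **The Euler product.** -/
theorem hasProd_LY (s : ℂ) (hs : (n : ℝ) + 1 + w < s.re) :
    HasProd (fun y : Y => Complex.exp (∑' m : ℕ, tr y.1 (m + 1) *
      ((qn y.1 : ℕ) : ℂ) ^ (-((m + 1 : ℂ) * s)) / (m + 1 : ℂ)))
      (Complex.exp (∑' c, Ac tr c * ((Qc c : ℕ) : ℂ) ^ (-s))) := by
  have h1 := summable_tmY n₀ C₀ hCt htr h0 hY s hs
  have h2 := h1.hasSum.prod_fiberwise fun y => (h1.prod_factor y).hasSum
  have h3 := h2.cexp
  rw [← (hasSum_AcY n₀ C₀ hCt htr h0 hY s hs).tsum_eq] at h3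
  have h4 := (Subtype.val_injective.hasProd_iff (f := fun y : MaximalSpectrum B =>
    Complex.exp (∑' m : ℕ, tr y (m + 1) *
      ((qn y : ℕ) : ℂ) ^ (-((m + 1 : ℂ) * s)) / (m + 1 : ℂ))) (g := fun y : Y => y.1) (by
      intro y hy
      have h5 : y ∉ Y := fun h => hy ⟨⟨y, h⟩, rfl⟩
      have h6 : ∀ m : ℕ, tr y (m + 1) *
          ((qn y : ℕ) : ℂ) ^ (-((m + 1 : ℂ) * s)) / (m + 1 : ℂ) = 0 := by
        intro m
        rw [h0 y h5, zero_mul, zero_div]
      simp only [h6, tsum_zero, Complex.exp_zero])).2 h3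
  exact h4

end

end Pool.Agent.Y707.PH
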