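import Pool.Agent.Y707.PH.Size

/-! The orders of `Φ₁` over all number fields. -/

set_option autoImplicit false

namespace Pool.Agent.Y707.PH

open Complex Filter Topology NumberField IsDedekindDomain Asymptotics
  Pool.Agent.W401.Cheb Pool.Agent.W540.BE Pool.Agent.W353.L1 Pool.Agent.W353.SP
open Pool.Agent.W353.FB (Fibration ValueAt LocalValue IsPartOf BoundedSpectrum Uniq average_unique
  exists_t spectralT cong_A)
open Pool.Agent.W353.TD (ch rank)
open Pool.Agent.W353.NF (fixn)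

section
variable {K : Type} [Field K] [NumberField K] {f : Fibration K}
  {R : Finset (HeightOneSpectrum (𝓞 K))} {F : Type} [Field F] [NumberField F] [Algebra K F] {C : ℝ}

theorem X_eq {Φ : ℂ → ℂ} (hf : IsLisse f R C) (h : IsPhi f R F Φ) {ε : ℝ} (hε : 0 < ε) :
    Real.log ‖Φ ((f.m : ℂ) + 1 + (ε : ℂ))‖ / Real.log ε = X f R F ε := by
  unfold X
  rw [isPhi_unique h (isPhi hf) _ (by
    rw [Complex.add_re, Complex.add_re, Complex.natCast_re, Complex.one_re, Complex.ofReal_re]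
    linarith)]

/-- the limit of the sizes -/
theorem size_lim (hf : IsLisse f R C) {k : WithTop ℤ} (h : HasOrder f R F k) :
    ∃ n : ℤ, k = n ∧ Tendsto (X f R F) (𝓝[>] 0) (𝓝 (n : ℝ)) := by
  obtain ⟨Φ, Λ, h1, h2, h3, h4⟩ := h
  obtain ⟨n, h5, h6⟩ := Pool.Agent.H126T.order_limit h2
    (fun ε : ℝ => Ph f R F ((f.m : ℂ) + 1 + ε))
    (Filter.Eventually.of_forall fun ε => Ph_ne _) (by
      filter_upwards [(Pool.Agent.H341R2.path_tendsto' ((f.m : ℂ) + 1)).eventually h3,
        self_mem_nhdsWithin] with ε h7 h8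
      have hε : (0 : ℝ) < ε := h8
      have hre : (f.m : ℝ) + 1 < ((f.m : ℂ) + 1 + ε).re := by
        simp
        exact hε
      rw [h7 hre, isPhi_unique h1 (isPhi hf) _ hre])
  refine ⟨n, by rw [← h4, h5], ?_⟩
  have h7 := h6.neg
  rw [neg_neg] at h7
  refine h7.congr fun ε => ?_
  unfold X
  rw [one_div, Real.log_inv, div_neg, neg_neg]

end

section
variable {K : Type} [Field K] [NumberField K] {f : Fibration K}
  {R : Finset (HeightOneSpectrum (𝓞 K))} {C : ℝ} {W : Type} [AddCommGroup W] [Module ℚ W]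
  [FiniteDimensional ℚ W] {ρ : Representation ℚ (GK K) W} {N : ℕ}

/-- **The spectrum of the orders.** -/
theorem spectrum (hf : IsLisse f R C) (hP : IsPartOf (averageValue f) N ρ) :
    PhiSpectrum f R N ρ := by
  classical
  intro e he
  choose σ hσ using exists_isFrob (F := K)
  obtain ⟨t, ht, htv, hts⟩ := exists_t hP σ hσ
  obtain ⟨φ, hφ, δF, δA, h1, h2, h3, h4, h5, h10⟩ :=
    spectralT (mnD K) ht hP.1 (N - Module.finrank ℚ W) σ hσ hts he
  have he' : Tendsto (fun j => e (φ j)) atTop (𝓝[>] 0) := he.comp hφ.tendsto_atTop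
  refine ⟨φ, hφ, δF, fun k χ => δA ⟨k, χ⟩, ?_,
    to_spectrum h3 (cong_A ((mnD K).comp he') hP.1 hσ h2) h4 h5, h10⟩
  intro F _ Φ hΦ
  have h6 := (size_diff (F := F) hf ht htv σ hσ).comp he'
  have h7 := (h1 F).2.sub h6
  rw [sub_zero] at h7
  refine h7.congr' ?_
  filter_upwards [he'.eventually self_mem_nhdsWithin] with j hj
  have hj' : (0 : ℝ) < e (φ j) := hj
  rw [Function.comp_apply, sub_sub_cancel, X_eq hf hΦ hj']

/-- the defects are bounded -/
theorem defect_le (hf : IsLisse f R C) (hP : IsPartOf (averageValue f) N ρ)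
    (F : IntermediateField K (AlgebraicClosure K)) [NumberField F] {k : WithTop ℤ}
    (h : HasOrder f R F k) :
    ∃ n : ℤ, k = n ∧ |(rank ρ F : ℝ) - n| ≤ ((N - Module.finrank ℚ W : ℕ) : ℝ) := by
  classical
  obtain ⟨n, rfl, hn⟩ := size_lim hf h
  refine ⟨n, rfl, ?_⟩
  choose σ hσ using exists_isFrob (F := K)
  obtain ⟨t, ht, htv, hts⟩ := exists_t hP σ hσ
  set s : ℝ := ((N - Module.finrank ℚ W : ℕ) : ℝ) with hs
  have hm := mnD K
  -- the means
  have g1 : Hs (𝓝[>] 0) (ED K) (fun v => t v * fixn K F (σ v)) (n : ℝ) := by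
    refine ⟨ht.mul (bd_fixn σ), ?_⟩
    have h6 := (size_diff (F := F) hf ht htv σ hσ).add hn
    rw [zero_add] at h6
    exact h6.congr fun ε => sub_add_cancel _ _
  have g2 : Hs (𝓝[>] 0) (ED K) (fun v => ch ρ (σ v)⁻¹ * fixn K F (σ v)) (rank ρ F : ℝ) := by
    have h6 := hm.fixMean ρ hP.1 F.val σ hσ
    have hr : rank ρ F = Module.finrank ℚ
        (Pool.Agent.W353.TD.inv ρ F.val.fieldRange.fixingSubgroup) := by
      rw [Pool.Agent.W353.TD.inv_eq, IntermediateField.fieldRange_val]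
      rfl
    rw [hr]
    exact h6
  have g3 : Hs (𝓝[>] 0) (ED K) (fun v => (fixn K F (σ v) : ℝ)) 1 := by
    have h6 := hm.fixMean (1 : Representation ℚ (GK K) ℚ) ⟨⊤, isOpen_univ, fun u _ => rfl⟩
      F.val σ hσ
    refine h6.congr (fun v => ?_) ?_
    · have : ch (1 : Representation ℚ (GK K) ℚ) (σ v)⁻¹ = 1 := by
        unfold ch
        simp
      rw [this, one_mul]
    · have h7 : Pool.Agent.W353.TD.inv (1 : Representation ℚ (GK K) ℚ)
          F.val.fieldRange.fixingSubgroup = ⊤ := by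
        refine eq_top_iff.2 fun x _ g _ => ?_
        rfl
      rw [h7, finrank_top, Module.finrank_self, Nat.cast_one]
  have g4 : Hs (𝓝[>] 0) (ED K) (fun v => (t v - ch ρ (σ v)⁻¹) * fixn K F (σ v))
      ((n : ℝ) - rank ρ F) :=
    (hm.hsAdd g1 (hm.hsMul g2 (-1))).congr (fun v => by ring) (by ring)
  have hs0 : 0 ≤ s := Nat.cast_nonneg _
  refine le_of_forall_pos_le_add fun η hη => ?_
  obtain ⟨G, hG⟩ := g4.1
  have hbad : {v | ¬ |t v - ch ρ (σ v)⁻¹| ≤ s + η}.Finite := by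
    have := hts η hη
    rwa [Filter.eventually_cofinite] at this
  set g : HeightOneSpectrum (𝓞 K) → ℝ := fun v =>
    if |t v - ch ρ (σ v)⁻¹| ≤ s + η then 0 else |G| with hg
  have hgb : Bd g := ⟨|G|, fun v => by
    rw [hg]
    simp only
    split_ifs
    · rw [abs_zero]; exact abs_nonneg _
    · rw [abs_abs]⟩
  have hgf : {v | g v ≠ 0}.Finite := hbad.subset fun v hv => by
    by_contra hcon
    rw [Set.mem_ofPred_eq, not_not] at hcon
    exact hv (if_pos hcon)
  have hu : ∀ v, |(t v - ch ρ (σ v)⁻¹) * fixn K F (σ v)| ≤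
      (s + η) * fixn K F (σ v) + g v := by
    intro v
    rw [hg]
    simp only
    split_ifs with h3
    · rw [add_zero, abs_mul, abs_of_nonneg (Nat.cast_nonneg _ : (0 : ℝ) ≤ (fixn K F (σ v) : ℝ))]
      exact mul_le_mul_of_nonneg_right h3 (Nat.cast_nonneg _)
    · have h5 := (hG v).trans (le_abs_self G)
      have h6 : 0 ≤ (s + η) * (fixn K F (σ v) : ℝ) := by positivity
      linarith
  have g5 : Hs (𝓝[>] 0) (ED K) (fun v => (s + η) * fixn K F (σ v) + g v) ((s + η) * 1 + 0) :=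
    hm.hsAdd (hm.hsMul g3 (s + η)) (hm.hsFin hgb hgf)
  have g6 := Hs.le hm g4 g5 fun v => (le_abs_self _).trans (hu v)
  have g7 := Hs.le hm (hm.hsMul g4 (-1)) g5 fun v => by
    have := hu v
    rw [← abs_neg] at this
    have h8 := (le_abs_self _).trans this
    linarith
  rw [abs_le]
  constructor <;> linarith

/-- **A finite Galois extension governs the defects.** -/
theorem governing (hf : IsLisse f R C) (hP : IsPartOf (averageValue f) N ρ) (c : ℕ) :
    ∃ M : IntermediateField K (AlgebraicClosure K), FiniteDimensional K M ∧ IsGalois K M ∧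
      ∀ (F F₀ : IntermediateField K (AlgebraicClosure K)) [NumberField F] [NumberField F₀],
        F₀ = F ⊓ M → Module.finrank K F ≤ c → ∀ k k₀ : ℤ, HasOrder f R F k →
          HasOrder f R F₀ k₀ → (rank ρ F : ℤ) - k = (rank ρ F₀ : ℤ) - k₀ := by
  classical
  have he : Tendsto (fun j : ℕ => (1 : ℝ) / (j + 1)) atTop (𝓝[>] 0) := by
    refine tendsto_nhdsWithin_iff.2 ⟨tendsto_one_div_add_atTop_nhds_zero_nat, ?_⟩
    filter_upwards with j
    exact Set.mem_Ioi.2 Nat.one_div_pos_of_nat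
  obtain ⟨φ, hφ, δ, y, h1, h2, -⟩ := spectrum hf hP _ he
  obtain ⟨M, hM1, hM2, hM3⟩ := h2.2.2.2 c 1 one_pos
  refine ⟨M, hM1, hM2, fun F F₀ _ _ hFF hdeg k k₀ hk hk₀ => ?_⟩
  have he' : Tendsto (fun j => (1 : ℝ) / (φ j + 1)) atTop (𝓝[>] 0) := he.comp hφ.tendsto_atTop
  have key : ∀ (F : IntermediateField K (AlgebraicClosure K)) [NumberField F] (k : ℤ),
      HasOrder f R F k → δ F = (rank ρ F : ℝ) - k := by
    intro F _ k hk
    obtain ⟨n, h3, h4⟩ := size_lim hf hk
    have h5 : k = n := by exact_mod_cast h3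
    have h6 := h1 F (Ph f R F) (isPhi hf)
    have h7 : Tendsto (fun j => X f R F ((1 : ℝ) / (φ j + 1))) atTop (𝓝 ((rank ρ F : ℝ) - δ F)) := by
      refine h6.congr fun j => ?_
      exact X_eq hf (isPhi hf) Nat.one_div_pos_of_nat
    have h8 := tendsto_nhds_unique h7 (h4.comp he')
    rw [h5]
    linarith
  have h3 := hM3 F hdeg
  have h4 := key F k hk
  have h5 : δ (F ⊓ M) = (rank ρ F₀ : ℝ) - k₀ := by
    subst hFF
    exact key _ k₀ hk₀
  rw [h4, h5] at h3
  have h6 : |(((rank ρ F : ℤ) - k - ((rank ρ F₀ : ℤ) - k₀) : ℤ) : ℝ)| < 1 := by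
    push_cast
    exact h3
  have h7 : |((rank ρ F : ℤ) - k - ((rank ρ F₀ : ℤ) - k₀))| < 1 := by exact_mod_cast h6
  have h8 := Int.abs_lt_one_iff.1 h7
  omega

end

end Pool.Agent.Y707.PH
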