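import Pool.Agent.Y707.PH.Phi
import Pool.Agent.W353.NF.Ineq

/-! The size of `Φ₁` near the edge. -/

set_option autoImplicit false

namespace Pool.Agent.Y707.PH

open Complex Filter Topology ComplexConjugate NumberField IsDedekindDomain Asymptotics
  Pool.Agent.W401.Cheb Pool.Agent.W540.BE Pool.Agent.W353.L1 Pool.Agent.W353.SP
open Pool.Agent.H126R3 (Qc Qc_pos)
open Pool.Agent.H341R2 (E E_const_mul)
open Pool.Agent.H921R2.TatePole (kerPrime)
open Pool.Agent.W385.CP (CB log_edge Qc_zero)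
open Pool.Agent.W353.FB (Fibration ValueAt finite_below valueAt_ker)
open Pool.Agent.W353.TP (HX sysH push push_abs_le qh qh_abs res LL LL_tendsto EH_eq sum_push
  bdd_isLittleO)
open Pool.Agent.W353.AB (Sy vq)
open Pool.Agent.W353.NF (fixn SzH vx cz TT size_fix qh_one)

section
variable {K : Type} [Field K] [NumberField K] {f : Fibration K}
  {R : Finset (HeightOneSpectrum (𝓞 K))} {F : Type} [Field F] [NumberField F] [Algebra K F] {C : ℝ}

/-- almost all prime numbers are good -/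
theorem off_eventually (R : Finset (HeightOneSpectrum (𝓞 K))) :
    ∀ᶠ p : Nat.Primes in cofinite, ∀ ψ : 𝓞 K →+* ZMod (p : ℕ),
      haveI : Fact (p : ℕ).Prime := ⟨p.2⟩
      Off R ψ := by
  filter_upwards [finite_below (F := K) R.finite_toSet] with p h ψ v hv hker
  apply h ψ
  have h1 : (kerPrime p ψ).1.1 = v := HeightOneSpectrum.ext hker
  rw [h1]
  exact hv

theorem av_t (hf : IsLisse f R C) {t : HeightOneSpectrum (𝓞 K) → ℝ}
    (htv : ∀ᶠ v in cofinite, ValueAt (averageValue f) v (t v)) :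
    ∀ᶠ p : Nat.Primes in cofinite, ∀ ψ : 𝓞 K →+* ZMod (p : ℕ),
      haveI : Fact (p : ℕ).Prime := ⟨p.2⟩
      Off R ψ ∧ av f ψ = -t (vx ⟨p, ψ⟩) := by
  rw [Filter.eventually_cofinite] at htv
  filter_upwards [off_eventually R, finite_below (F := K) htv] with p h1 h2 ψ
  have : Fact (p : ℕ).Prime := ⟨p.2⟩
  refine ⟨h1 ψ, ?_⟩
  have h3 : ValueAt (averageValue f) (kerPrime p ψ).1.1 (t (vx (⟨p, ψ⟩ : HX K))) := by
    by_contra hcon
    exact h2 ψ hcon
  have h4 := valueAt_ker (F := K) (ψ := ψ) h3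
  have h5 : ∀ φ' : 𝓞 K →+* ZMod (p : ℕ), φ' = ψ → averageValue f (ZMod (p : ℕ)) φ'
      (t (vx (⟨p, ψ⟩ : HX K))) → averageValue f (ZMod (p : ℕ)) ψ (t (vx (⟨p, ψ⟩ : HX K))) := by
    intro φ' h6 h7
    rwa [h6] at h7
  obtain ⟨A, hA, hA'⟩ := h5 _ (RingHom.ext fun x => rfl) h4
  rw [hA', neg_neg]
  exact (av_eq hf (h1 ψ) hA).symm

/-- the values as a system -/
noncomputable def syT (t : HeightOneSpectrum (𝓞 K) → ℝ) (B : ℝ) (hB : ∀ v, |t v| ≤ B) : Sy K where
  ι := Unit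
  P := {()}
  r := 0
  A _ := ∅
  T _ x := ((t (vx x) : ℝ) : ℂ)
  b _ := B
  hb _ _ := (abs_nonneg _).trans (hB (vx (sysH K).nonempty.some))
  hT _ _ x := by
    rw [Complex.norm_real, Real.norm_eq_abs]
    exact hB _

variable (f R F) in
/-- the size -/
noncomputable def X (ε : ℝ) : ℝ := Real.log ‖Ph f R F ((f.m : ℂ) + 1 + ε)‖ / Real.log ε

theorem sum_wt_eq (hf : IsLisse f R C) {t : HeightOneSpectrum (𝓞 K) → ℝ}
    (htv : ∀ᶠ v in cofinite, ValueAt (averageValue f) v (t v)) :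
    ∀ᶠ p : Nat.Primes in cofinite,
      cf f R F (p, 0) = (((-∑ ψ : 𝓞 F →+* ZMod (p : ℕ), t (vx ⟨p, res K ψ⟩)) *
        ((p : ℕ) : ℝ) ^ f.m : ℝ) : ℂ) := by
  filter_upwards [av_t hf htv] with p hp
  have : Fact (p : ℕ).Prime := ⟨p.2⟩
  have hk : Nat.card (ZMod (p : ℕ)) = Qc (p, 0) := by
    rw [Nat.card_zmod, Qc_zero]
  rw [cf_eq hf hk, finsum_eq_sum_of_fintype]
  have h1 : ∀ ψ : 𝓞 F →+* ZMod (p : ℕ), wt f R F ψ =
      -t (vx ⟨p, res K ψ⟩) * ((p : ℕ) : ℝ) ^ f.m := by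
    intro ψ
    have h2 := hp (res K ψ)
    have h4 : Off R (ψ.comp (algebraMap (𝓞 K) (𝓞 F))) := h2.1
    unfold wt
    rw [if_pos h4, Nat.card_zmod]
    have h3 : av f (ψ.comp (algebraMap (𝓞 K) (𝓞 F))) = -t (vx ⟨p, res K ψ⟩) := h2.2
    rw [h3, mul_comm]
  rw [Finset.sum_congr rfl fun ψ _ => h1 ψ, ← Finset.sum_mul, Finset.sum_neg_distrib]
  simp

theorem isSize (hf : IsLisse f R C) {t : HeightOneSpectrum (𝓞 K) → ℝ} {B : ℝ}
    (hB : ∀ v, |t v| ≤ B)
    (htv : ∀ᶠ v in cofinite, ValueAt (averageValue f) v (t v)) :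
    (syT t B hB).IsSize (F := F) (fun _ => 1) 0 (X f R F) := by
  classical
  have hB0 : 0 ≤ B := (abs_nonneg _).trans (hB (vx (sysH K).nonempty.some))
  set n : ℝ := (Module.finrank ℚ F : ℝ) with hn
  have hn0 : 0 ≤ n := Nat.cast_nonneg _
  set a : Nat.Primes → ℝ := fun p => -∑ ψ : 𝓞 F →+* ZMod (p : ℕ), t (vx ⟨p, res K ψ⟩) with ha
  have hab : ∀ p, |a p| ≤ n * B := by
    intro p
    rw [ha]
    simp only
    rw [abs_neg]
    refine (Finset.abs_sum_le_sum_abs _ _).trans ?_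
    refine (Finset.sum_le_sum fun ψ _ => hB _).trans ?_
    rw [Finset.sum_const, nsmul_eq_mul, Finset.card_univ]
    have h1 := Pool.Agent.W353.TP.card_hom_le (K := F) p
    exact mul_le_mul_of_nonneg_right (Nat.cast_le.2 h1) hB0
  have hev := sum_wt_eq (F := F) hf htv
  rw [Filter.eventually_cofinite] at hev
  set D : ℝ := ∑ p ∈ hev.toFinset, ((p : ℕ) : ℝ) ^ (1 / 2 : ℝ) with hD
  have hD0 : 0 ≤ D := Finset.sum_nonneg fun p _ => by positivity
  set C' : ℝ := bC F C + (bC F C + n * B) * D with hC'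
  have hbC : 0 ≤ bC F C := bC_nonneg
  have hC'1 : bC F C ≤ C' := by
    rw [hC']
    have : 0 ≤ (bC F C + n * B) * D := by positivity
    linarith
  have hcb : CB (cf f R F) f.m C' := cb hf hC'1
  have hA : ∀ p : Nat.Primes, ‖cf f R F (p, 0) - ((a p * ((p : ℕ) : ℝ) ^ f.m : ℝ) : ℂ)‖ ≤
      C' * ((p : ℕ) : ℝ) ^ ((f.m : ℝ) - 1 / 2) := by
    intro p
    have hp0 : (0 : ℝ) < ((p : ℕ) : ℝ) := by exact_mod_cast p.2.pos
    by_cases hp : p ∈ hev.toFinset
    · have h1 := norm_cf (F := F) hf (p, 0)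
      rw [Qc_zero] at h1
      have h2 : ‖((a p * ((p : ℕ) : ℝ) ^ f.m : ℝ) : ℂ)‖ ≤ n * B * ((p : ℕ) : ℝ) ^ f.m := by
        rw [Complex.norm_real, Real.norm_eq_abs, abs_mul, abs_of_nonneg (by positivity :
          (0 : ℝ) ≤ ((p : ℕ) : ℝ) ^ f.m)]
        exact mul_le_mul_of_nonneg_right (hab p) (by positivity)
      have h3 : ((p : ℕ) : ℝ) ^ (1 / 2 : ℝ) ≤ D :=
        Finset.single_le_sum (f := fun p : Nat.Primes => ((p : ℕ) : ℝ) ^ (1 / 2 : ℝ))
          (fun p _ => by positivity) hp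
      have h4 : ((p : ℕ) : ℝ) ^ f.m = ((p : ℕ) : ℝ) ^ (1 / 2 : ℝ) *
          ((p : ℕ) : ℝ) ^ ((f.m : ℝ) - 1 / 2) := by
        rw [← Real.rpow_add hp0, ← Real.rpow_natCast]
        congr 1
        ring
      refine (norm_sub_le _ _).trans ((add_le_add h1 h2).trans ?_)
      rw [← add_mul, h4, ← mul_assoc]
      refine mul_le_mul_of_nonneg_right ?_ (by positivity)
      calc (bC F C + n * B) * ((p : ℕ) : ℝ) ^ (1 / 2 : ℝ) ≤ (bC F C + n * B) * D :=
            mul_le_mul_of_nonneg_left h3 (by positivity)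
        _ ≤ C' := by
            rw [hC']
            linarith
    · rw [Set.Finite.mem_toFinset, Set.mem_ofPred_eq, not_not] at hp
      rw [hp, sub_self, norm_zero]
      have : 0 ≤ C' := hbC.trans hC'1
      positivity
  obtain ⟨C'', hC''⟩ := log_edge hcb a hab hA
  unfold Sy.IsSize
  refine bdd_isLittleO ⟨C'', ?_⟩
  have hlt : ∀ᶠ ε : ℝ in 𝓝[>] 0, ε < 1 :=
    nhdsWithin_le_nhds (eventually_lt_nhds (show (0 : ℝ) < 1 by norm_num))
  filter_upwards [self_mem_nhdsWithin, hlt] with ε hε hε1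
  have hε' : (0 : ℝ) < ε := hε
  have hlog : Real.log ε ≠ 0 := (Real.log_neg hε' hε1).ne
  have e1 : X f R F ε * LL ε = -Real.log ‖Ph f R F ((f.m : ℂ) + 1 + ε)‖ := by
    unfold X LL
    rw [one_div, Real.log_inv, mul_neg, div_mul_cancel₀ _ hlog]
  have e2 : (syT t B hB).corr (F := F) (fun _ => 1) 0 ε = -E ε a := by
    unfold Sy.corr
    change ∑ j ∈ ({()} : Finset Unit), _ = _
    rw [Finset.sum_singleton]
    have e3 : (fun x : HX K => ((syT t B hB).T () x *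
        conj (vq K ((syT t B hB).D (fun _ => (1 : 𝓞 F)) ()) 0 x)).re) =
        fun x : HX K => push K (fun y : HX F => t (vx ⟨y.1, res K y.2⟩) * qh (1 : 𝓞 F) y) x := by
      funext x
      have e4 : (syT t B hB).D (fun _ => (1 : 𝓞 F)) () = 1 := Finset.prod_const_one
      rw [e4]
      change (((t (vx x) : ℝ) : ℂ) * conj (vq K (1 : 𝓞 F) 0 x)).re = _
      unfold vq
      rw [Complex.ofReal_zero, zero_mul, Complex.cpow_zero, mul_one, Complex.conj_ofReal,
        ← Complex.ofReal_mul, Complex.ofReal_re]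
      unfold push
      rw [Finset.mul_sum]
      refine Finset.sum_congr rfl fun ψ hψ => ?_
      rw [Finset.mem_filter] at hψ
      simp only [hψ.2]
    rw [e3]
    have e5 : ∀ y : HX F, |t (vx ⟨y.1, res K y.2⟩) * qh (1 : 𝓞 F) y| ≤ B := by
      intro y
      rw [abs_mul]
      calc _ ≤ B * 1 := mul_le_mul (hB _) (qh_abs _ _) (abs_nonneg _) hB0
        _ = _ := mul_one _
    refine (EH_eq hε' (push_abs_le e5)).trans ?_
    have e6 : -E ε a = E ε fun p => (-1) * a p := by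
      rw [E_const_mul]
      ring
    rw [e6]
    refine congrArg (E ε) (funext fun p => ?_)
    refine (sum_push _ p).trans ?_
    rw [ha]
    simp only [neg_mul, one_mul, neg_neg]
    refine Finset.sum_congr rfl fun ψ _ => ?_
    rw [qh_one, mul_one]
  rw [e1, e2]
  have h1 := hC'' ε hε'
  have e7 : -Real.log ‖Ph f R F ((f.m : ℂ) + 1 + ε)‖ - -E ε a =
      -(Real.log ‖Ph f R F ((f.m : ℂ) + 1 + ε)‖ - E ε a) := by ring
  rw [e7, abs_neg]
  exact h1

/-- **The size in terms of the values.** -/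
theorem size_diff (hf : IsLisse f R C) {t : HeightOneSpectrum (𝓞 K) → ℝ} (ht : Bd t)
    (htv : ∀ᶠ v in cofinite, ValueAt (averageValue f) v (t v))
    (σ : HeightOneSpectrum (𝓞 K) → GK K) (hσ : ∀ v, IsFrob v (σ v)) :
    Tendsto (fun ε => ED K ε (fun v => t v * fixn K F (σ v)) - X f R F ε) (𝓝[>] 0) (𝓝 0) := by
  obtain ⟨B, hB⟩ := ht
  have hreal : ∀ j ∈ (syT t B hB).P, ∀ x, ((syT t B hB).T j x).im = 0 := by
    intro j _ x
    exact Complex.ofReal_im _
  have h1 := size_fix (syT t B hB) hreal σ hσ (isSize (F := F) hf hB htv)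
  have e1 : Pool.Agent.W353.NF.TT (syT t B hB) = fun x => t (vx x) := by
    funext x
    unfold Pool.Agent.W353.NF.TT
    change ∑ j ∈ ({()} : Finset Unit), _ = _
    rw [Finset.sum_singleton]
    exact Complex.ofReal_re _
  have e2 : (fun v => (fixn K F (σ v) : ℝ) * cz 0 v) = fun v => (fixn K F (σ v) : ℝ) := by
    funext v
    unfold cz zz
    rw [Complex.ofReal_zero, zero_mul, neg_zero, Complex.cpow_zero, Complex.one_re, mul_one]
  rw [e1, e2] at h1
  exact sz_diff (fun x => rfl) h1 (Bd.mul (f := t) ⟨B, hB⟩ (bd_fixn σ))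

end

end Pool.Agent.Y707.PH
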